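import Mathlib
import Pool.Agent.helper972_bl.G7
import Pool.Agent.helper972_bl.ZS
set_option autoImplicit false

/-!
# Stein's restriction conjecture for the sphere, tested on Brascamp-Lieb weights of rank at most two

`ft f ξ = ∫_{S^{n-1}} e^{-2πi x·ξ} f(x) dσ(x)`, `n ≥ 3`. Let `q > 2n/(n-1)` be any exponent of the
conjectured range and `r = q/(q-2)`, `1/r = 1 - 2/q`. By duality the conjecture says that
`∫ |ft f|² W ≤ C ‖W‖_r ‖f‖_∞²` for all weights `W ≥ 0`.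

Let `π_i`, `λ_j` be linear maps of `ℝ^n` onto planes and lines, with weights `p_i`, `s_j > 0`, for
which the Brascamp-Lieb inequality for sets holds with some constant `c`:
`|{ξ : π_i ξ ∈ A_i, λ_j ξ ∈ B_j}| ≤ c ∏ |A_i|^{p_i} ∏ |B_j|^{s_j}`.
Then for all measurable sets, with `T = {ξ : π_i ξ ∈ A_i, λ_j ξ ∈ B_j}`,

* (Sets) `∫_T |ft f|² ≤ C (c ∏ |A_i|^{p_i} ∏ |B_j|^{s_j})^{1/r} ‖f‖_∞²`, where `C` only depends on
  `n` and `q`, not on the datum;
* (Weights) the same for the weights `∏ u_i(π_i ξ) ∏ w_j(λ_j ξ)`, with the weak `L^{r/p_i}`,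
  `L^{r/s_j}` norms of the factors.

The right hand sides are the bounds of `‖W‖_r` which the Brascamp-Lieb inequality gives.

* (Graphs) Such data are: all fractional perfect matchings on the coordinates `⟪v_t, ξ⟫` of ANY
  basis `v` of `ℝ^n` (Finner), with `c` the Jacobian of the coordinates.
* (Levels) In particular, for any splitting of `ℝ^n` into planes and lines, product sets `P` on
  which `|ft f| ≥ l` have measure at most `C (‖f‖_∞ / l)^q`.
-/

namespace Pool.Agent.Results.MP_6cbfb8_an.BrascampLieb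

open MeasureTheory Set Metric Complex
open Pool.Agent.H972BL (E Dat weakNorm TotalOne cell)
open scoped ENNReal NNReal RealInnerProductSpace

/-- surface measure on the unit sphere -/
noncomputable def sigma (n : ℕ) : Measure (sphere (0 : E n) 1) := (volume : Measure (E n)).toSphere

/-- the Fourier transform of the measure `f dσ` -/
noncomputable def ft {n : ℕ} (f : sphere (0 : E n) 1 → ℂ) (ξ : E n) : ℂ :=
  ∫ x, Complex.exp (-(2 * Real.pi * ⟪(x : E n), ξ⟫ : ℝ) * I) * f x ∂(sigma n)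

/-- the `L^∞(σ)` norm -/
noncomputable def supNorm {n : ℕ} (f : sphere (0 : E n) 1 → ℂ) : ℝ≥0∞ := eLpNorm f ∞ (sigma n)

/-- the restriction estimate on Brascamp-Lieb sets, with a constant independent of the datum -/
def Sets (n : ℕ) (q : ℝ) : Prop :=
  ∃ C : ℝ≥0, ∀ (a b : ℕ) (D : Dat n a b) (c : ℝ≥0) (f : sphere (0 : E n) 1 → ℂ),
    D.Admissible → D.BL c → MemLp f ∞ (sigma n) →
    ∀ (A : Fin a → Set (ℝ × ℝ)) (B : Fin b → Set ℝ),
      (∀ i, MeasurableSet (A i)) → (∀ j, MeasurableSet (B j)) →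
      ∫⁻ ξ in D.set A B, ‖ft f ξ‖ₑ ^ 2 ≤
        C * (c * ((∏ i, volume (A i) ^ D.p i) * ∏ j, volume (B j) ^ D.s j)) ^ (1 - 2 / q) *
          supNorm f ^ 2

/-- the restriction estimate on Brascamp-Lieb weights -/
def Weights (n : ℕ) (q : ℝ) : Prop :=
  ∃ C R : ℝ≥0, ∀ (a b : ℕ) (D : Dat n a b) (c : ℝ≥0) (f : sphere (0 : E n) 1 → ℂ),
    D.Admissible → D.BL c → MemLp f ∞ (sigma n) →
    ∀ (u : Fin a → ℝ × ℝ → ℝ≥0∞) (w : Fin b → ℝ → ℝ≥0∞),
      (∀ i, Measurable (u i)) → (∀ j, Measurable (w j)) →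
      ∫⁻ ξ, D.weight u w ξ * ‖ft f ξ‖ₑ ^ 2 ≤
        C * R ^ (a + b) * (c : ℝ≥0∞) ^ (1 - 2 / q) *
          ((∏ i, weakNorm (D.p i * (1 - 2 / q)) (u i)) *
            ∏ j, weakNorm (D.s j * (1 - 2 / q)) (w j)) * supNorm f ^ 2

/-- fractional perfect matchings on the coordinates of any basis are Brascamp-Lieb data -/
def Graphs (n : ℕ) : Prop :=
  ∀ (a b : ℕ) (v : Fin n → E n) (I J : Fin a → Fin n) (K : Fin b → Fin n) (p : Fin a → ℝ)
    (s : Fin b → ℝ), LinearIndependent ℝ v → TotalOne I J K p s →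
    (Dat.ofGraph v I J K p s).Admissible ∧ cell v ≠ ∞ ∧
      (Dat.ofGraph v I J K p s).BL (cell v).toNNReal

/-- product sets inside superlevel sets, for all splittings into planes and lines -/
def Levels (n : ℕ) (q : ℝ) : Prop :=
  ∃ C : ℝ≥0, ∀ (k m : ℕ) (σ : (Fin k ⊕ Fin k) ⊕ Fin m ≃ Fin n) (v : Fin n → E n)
    (f : sphere (0 : E n) 1 → ℂ), LinearIndependent ℝ v → MemLp f ∞ (sigma n) →
    ∀ (A : Fin k → Set (ℝ × ℝ)) (B : Fin m → Set ℝ),
      (∀ i, MeasurableSet (A i)) → (∀ j, MeasurableSet (B j)) → ∀ l : ℝ, 0 < l →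
      (∀ ξ ∈ (Dat.ofBasis v σ).set A B, l ≤ ‖ft f ξ‖) →
      volume ((Dat.ofBasis v σ).set A B) ≤ C * (supNorm f / ENNReal.ofReal l) ^ q

theorem result (n : ℕ) (q : ℝ) (hn : 3 ≤ n) (hq : 2 * (n : ℝ) / (n - 1) < q) :
    Sets n q ∧ Weights n q ∧ Graphs n ∧ Levels n q := by
  obtain ⟨N, rfl⟩ : ∃ N, n = N + 2 := ⟨n - 2, by omega⟩
  have hN : 1 ≤ N := by omega
  have hN' : (1 : ℝ) ≤ N := by exact_mod_cast hN
  push_cast at hq
  have h1 : (0 : ℝ) < (N : ℝ) + 2 - 1 := by linarith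
  rw [div_lt_iff₀ h1] at hq
  have hq2 : 2 < q := by nlinarith
  have hr2 : q / (q - 2) < (N : ℝ) + 2 := by
    rw [div_lt_iff₀ (by linarith)]
    nlinarith
  obtain ⟨⟨C1, hC1⟩, ⟨C2, R, hC2⟩, ⟨C3, hC3⟩⟩ := Pool.Agent.H972BL.all N
    (Pool.Agent.H972BL.Sph N) (Pool.Agent.H972BL.sph_good N hN) q hq2 hr2
  refine ⟨⟨C1, fun a b D c f hD hBL hf A B hA hB => ?_⟩,
    ⟨C2, R, fun a b D c f hD hBL hf u w hu hw => ?_⟩,
    fun a b v I J K p s hv h => ⟨Pool.Agent.H972BL.graph_adm v hv I J K p s h,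
      Pool.Agent.H972BL.cell_ne v hv, Pool.Agent.H972BL.graph_BL v hv I J K p s h⟩,
    ⟨C3, fun k m σ v f hv hf A B hA hB l hl hsub => ?_⟩⟩
  · have h := hC1 a b D c hD hBL _ _ (Pool.Agent.H972BL.sph_mem N f hf) A B hA hB
    rw [Pool.Agent.H972BL.sph_norm N f hf] at h
    exact h
  · have h := hC2 a b D c hD hBL _ _ (Pool.Agent.H972BL.sph_mem N f hf) u w hu hw
    rw [Pool.Agent.H972BL.sph_norm N f hf] at h
    exact h
  · have h := hC3 k m σ v hv _ _ (Pool.Agent.H972BL.sph_mem N f hf) ENNReal.toReal_nonneg A B hA hB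
      l hl (fun x hx => by
        rw [← ofReal_norm]
        exact ENNReal.ofReal_le_ofReal (hsub x hx))
    have e : ENNReal.ofReal (eLpNorm f ∞ (Pool.Agent.R412.SP.sigma (N + 2))).toReal =
        eLpNorm f ∞ (Pool.Agent.R412.SP.sigma (N + 2)) := ENNReal.ofReal_toReal hf.2.ne
    rw [e] at h
    exact h

end Pool.Agent.Results.MP_6cbfb8_an.BrascampLieb
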