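import Mathlib
import Pool.Agent.Helper969.EX.Y2
set_option autoImplicit false

/-!
# Stein's restriction conjecture over the half-wave group of the sphere: exceptional times

Let `n ≥ 3`. We consider families `G(t, x)`, `t ∈ ℝ/ℤ`, of densities on the unit sphere of `ℝ^n`,
in `L⁴` of the product of the circle and the sphere, whose `k`-th Fourier coefficient in `t` is a
spherical harmonic of degree `k` for every `k ≥ 0`. If the negative coefficients vanish, these are
the orbits `G(t, ·) = e^{2πitD} g` of the half-wave group, where `D Y = k Y` for spherical harmonics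
`Y` of degree `k`. More generally we allow that for a fixed integer `s ≥ 0` the coefficient of index
`-(s+k)` is also a spherical harmonic of degree `k`, for every `k ≥ 0`, and that the coefficients of
index `-s < k < 0` vanish. Since we look at individual times, we suppose that `ft (G t) ξ` is a
continuous function of `t` for every `ξ`.

* (Dimension) For `2n/(n-1) < p < 4` the set of all times `t` for which the Fourier transform of
  `G(t, ·) dσ` is not in `L^p(ℝ^n)` has Hausdorff dimension at most `n + 1 - p (n-1)/2`. This is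
  less than `1` in the whole conjectured range `p > 2n/(n-1)`, and reaches `0` at the exponent
  `2(n+1)/(n-1)` of Stein and Tomas.
* (Fractal averages) Let `0 ≤ α ≤ 1` and `2(n+1-α)/(n-1) < p < 4`. Let `μ` be a measure on `ℝ/ℤ` with
  `μ(B(t, r)) ≤ c r^α` for all `t` and `r`. Then the integral over `μ` of the `p`-th power of the
  `L^p(ℝ^n)` norm of the Fourier transform of `G(t, ·) dσ` is at most `C c ‖G‖_{L⁴}^p`, with a
  constant `C` which depends on `n`, `p`, `α` only.
-/

namespace Pool.Agent.Results.MP_6cbfb8_an.ExceptionalTimes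

open MeasureTheory Set Metric Complex
open Pool.Agent.H789R2.FR (E)
open scoped ENNReal NNReal RealInnerProductSpace ComplexConjugate

/-- surface measure on the unit sphere -/
noncomputable def sigma (n : ℕ) : Measure (sphere (0 : E n) 1) := (volume : Measure (E n)).toSphere

/-- normalised Haar measure on `ℝ/ℤ` -/
noncomputable abbrev haar : Measure UnitAddCircle := AddCircle.haarAddCircle

/-- the Fourier transform of the measure `g dσ` -/
noncomputable def ft {n : ℕ} (g : sphere (0 : E n) 1 → ℂ) (ξ : E n) : ℂ :=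
  ∫ x, Complex.exp (-(2 * Real.pi * ⟪(x : E n), ξ⟫ : ℝ) * I) * g x ∂(sigma n)

/-- `f` is a spherical harmonic of degree `k`: it agrees almost everywhere on the unit sphere with
a harmonic homogeneous polynomial of degree `k` with complex coefficients. -/
def SphericalHarmonic {n : ℕ} (k : ℕ) (f : sphere (0 : E n) 1 → ℂ) : Prop :=
  ∃ P : MvPolynomial (Fin n) ℂ, P.IsHomogeneous k ∧
    ∑ i, MvPolynomial.pderiv i (MvPolynomial.pderiv i P) = 0 ∧
    ∀ᵐ x ∂(sigma n), f x = MvPolynomial.eval (fun i => (((x : E n) i : ℝ) : ℂ)) P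

/-- `G` is a Borel family of densities; its Fourier coefficients in `t` of index `k` and of index
`-(s+k)` are spherical harmonics of degree `k`, for all `k ≥ 0`, and those of index `-s < k < 0`
vanish; the Fourier transform of `G(t, ·) dσ` at each point depends continuously on `t`. -/
def Wave {n : ℕ} (s : ℕ) (G : UnitAddCircle → sphere (0 : E n) 1 → ℂ) : Prop :=
  Measurable (Function.uncurry G) ∧
  (∀ k : ℕ, SphericalHarmonic k fun x => fourierCoeff (fun t => G t x) k) ∧
  (∀ k : ℕ, SphericalHarmonic k fun x => fourierCoeff (fun t => G t x) (-((s + k : ℕ) : ℤ))) ∧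
  (∀ k : ℕ, 0 < k → k < s → ∀ᵐ x ∂(sigma n), fourierCoeff (fun t => G t x) (-(k : ℤ)) = 0) ∧
  ∀ ξ : E n, Continuous fun t => ft (G t) ξ

/-- the integral of `|G|^4` over the product of the circle and the sphere -/
noncomputable def four {n : ℕ} (G : UnitAddCircle → sphere (0 : E n) 1 → ℂ) : ℝ≥0∞ :=
  ∫⁻ t, (∫⁻ x, ‖G t x‖ₑ ^ 4 ∂(sigma n)) ∂haar

theorem wave_of {n s : ℕ} {G : UnitAddCircle → sphere (0 : E n) 1 → ℂ} (h : Wave s G) :
    Pool.Agent.Helper969.HW.Wave s G := by
  obtain ⟨-, h1, h2, h3, -⟩ := h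
  refine ⟨fun k => ?_, fun k => ?_, h3⟩
  · obtain ⟨P, a, b, c⟩ := h1 k
    exact ⟨P, ⟨a, b⟩, c⟩
  · obtain ⟨P, a, b, c⟩ := h2 k
    exact ⟨P, ⟨a, b⟩, c⟩

theorem not_memLp {n s : ℕ} {G : UnitAddCircle → sphere (0 : E n) 1 → ℂ} (h : Wave s G) (p : ℝ)
    (hp : 0 < p) (t : UnitAddCircle) (ht : ¬ MemLp (ft (G t)) (ENNReal.ofReal p)) :
    ∫⁻ ξ, ‖ft (G t) ξ‖ₑ ^ p = ∞ := by
  by_contra hcon
  apply ht
  have hm := (Pool.Agent.Helper969.HW.sft_joint G h.1).comp (measurable_prodMk_left (x := t))
  have hm' : Measurable (ft (G t)) := hm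
  refine ⟨hm'.aestronglyMeasurable, ?_⟩
  rw [eLpNorm_lt_top_iff_lintegral_rpow_enorm_lt_top
    (by rw [Ne, ENNReal.ofReal_eq_zero, not_le]; exact hp) ENNReal.ofReal_ne_top,
    ENNReal.toReal_ofReal hp.le]
  exact lt_top_iff_ne_top.2 hcon

/-- **Theorem.** -/
theorem result (n : ℕ) (hn : 3 ≤ n) :
    (∀ p : ℝ, 2 * (n : ℝ) / (n - 1) < p → p < 4 →
      ∀ (s : ℕ) (G : UnitAddCircle → sphere (0 : E n) 1 → ℂ), Wave s G → four G < ∞ →
        dimH {t : UnitAddCircle | ¬ MemLp (ft (G t)) (ENNReal.ofReal p)} ≤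
          ENNReal.ofReal (n + 1 - p * (n - 1) / 2)) ∧
    (∀ α p : ℝ, 0 ≤ α → α ≤ 1 → 2 * ((n : ℝ) + 1 - α) / (n - 1) < p → p < 4 → ∃ C : ℝ≥0,
      ∀ (s : ℕ) (G : UnitAddCircle → sphere (0 : E n) 1 → ℂ), Wave s G →
        ∀ (μ : Measure UnitAddCircle) (c : ℝ≥0),
          (∀ (t : UnitAddCircle) (r : ℝ), 0 < r →
            μ (closedBall t r) ≤ c * ENNReal.ofReal (r ^ α)) →
          ∫⁻ t, (∫⁻ ξ, ‖ft (G t) ξ‖ₑ ^ p) ∂μ ≤ C * c * (four G) ^ (p / 4)) := by
  have hn' : (3 : ℝ) ≤ n := by exact_mod_cast hn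
  refine ⟨fun p hp hp4 s G hG h4 => ?_, fun α p hα0 hα1 hp hp4 => ?_⟩
  · have hp2 : 2 < p := by
      refine lt_of_le_of_lt ?_ hp
      rw [le_div_iff₀ (by linarith)]
      linarith
    refine le_trans (dimH_mono fun t ht => ?_)
      (Pool.Agent.Helper969.EX.dim_exc n hn p hp2 hp4 s G hG.1 (wave_of hG) h4.ne hG.2.2.2.2)
    exact not_memLp hG p (by linarith) t ht
  · have hp2 : 2 < p := by
      refine lt_of_le_of_lt ?_ hp
      rw [le_div_iff₀ (by linarith)]
      linarith
    rw [div_lt_iff₀ (by linarith)] at hp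
    obtain ⟨C, hC, h⟩ := Pool.Agent.Helper969.EX.frost n hn α p hp2 hp4 (by linarith)
    refine ⟨C.toNNReal + 1, fun s G hG μ c hμ => ?_⟩
    have hmass : μ univ ≤ c := by
      have h1 := hμ 0 1 one_pos
      rw [Real.one_rpow, ENNReal.ofReal_one, mul_one] at h1
      refine (measure_mono ?_).trans h1
      intro t _
      rw [mem_closedBall, dist_zero_right]
      obtain ⟨y, -, hy1, hy2⟩ := Pool.Agent.Helper969.EX.rep t
      rw [hy1]
      linarith
    have hfin : IsFiniteMeasure μ := ⟨lt_of_le_of_lt hmass ENNReal.coe_lt_top⟩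
    by_cases hB : four G = ∞
    · rcases eq_or_ne c 0 with hc | hc
      · have h0 : μ = 0 := by
          rw [← Measure.measure_univ_eq_zero]
          rw [hc] at hmass
          simpa using hmass
        rw [h0, lintegral_zero_measure]
        exact zero_le
      · rw [hB, ENNReal.top_rpow_of_pos (by linarith), ENNReal.mul_top]
        · exact le_top
        · have h5 : (C.toNNReal + 1) * c ≠ 0 := mul_ne_zero (by positivity) hc
          exact_mod_cast h5
    · refine (h s G hG.1 (wave_of hG) hB hG.2.2.2.2 μ c hμ).trans ?_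
      have h6 : C ≤ ((C.toNNReal + 1 : ℝ≥0) : ℝ≥0∞) := by
        rw [ENNReal.coe_add, ENNReal.coe_toNNReal hC]
        exact le_self_add
      exact mul_le_mul' (mul_le_mul' h6 le_rfl) le_rfl

end Pool.Agent.Results.MP_6cbfb8_an.ExceptionalTimes
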