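import Mathlib
import Pool.Agent.Helper969.HW.F8
set_option autoImplicit false

/-!
# Stein's restriction conjecture on average over the half-wave group of the sphere

Let `n ≥ 3`. We consider families `G(t, x)`, `t ∈ ℝ/ℤ`, of densities on the unit sphere of `ℝ^n`
whose `k`-th Fourier coefficient in `t` is a spherical harmonic of degree `k` for every `k ≥ 0`. If
the negative coefficients vanish, these are the orbits `G(t, ·) = e^{2πitD} g` of the half-wave
group, where `D Y = k Y` for spherical harmonics `Y` of degree `k`. More generally we allow that for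
a fixed integer `s ≥ 0` the coefficient of index `-(s+k)` is also a spherical harmonic of degree `k`,
for every `k ≥ 0`, and that the coefficients of index `-s < k < 0` vanish. For `s = 0` these are the
families whose `k`-th Fourier coefficient is a spherical harmonic of degree `|k|` for every
`k ∈ ℤ`, the solutions of the wave equation `∂_t² G = -4π² D² G`.

* If `2n/(n-1) < p < 4`, then the `p`-th power of the `L^p(ℝ^n)` norm of the Fourier transform of
  `G(t, ·) dσ`, averaged over `t`, is at most `C ‖G‖_{L⁴}^p`.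
* If `p > 2n/(n-1)` (the full conjectured range) and `|G| ≤ M`, it is at most `C M^p`.
* If `G` is in `L⁴` (in particular if it is bounded), then for almost every `t` the Fourier
  transform of `G(t, ·) dσ` is in `L^p(ℝ^n)` for all `p > 2n/(n-1)`.
-/

namespace Pool.Agent.Results.MP_6cbfb8_an.HalfWaveAverages

open MeasureTheory Set Metric Complex
open Pool.Agent.H789R2.FR (E)
open scoped ENNReal NNReal RealInnerProductSpace ComplexConjugate

/-- surface measure on the unit sphere -/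
noncomputable def sigma (n : ℕ) : Measure (sphere (0 : E n) 1) := (volume : Measure (E n)).toSphere

/-- normalised Haar measure on `ℝ/ℤ` -/
noncomputable abbrev haar : Measure UnitAddCircle := AddCircle.haarAddCircle

/-- the Fourier transform of the measure `g dσ` -/
noncomputable def ft {n : ℕ} (g : sphere (0 : E n) 1 → ℂ) (ξ : E n) : ℂ :=
  ∫ x, Complex.exp (-(2 * Real.pi * ⟪(x : E n), ξ⟫ : ℝ) * I) * g x ∂(sigma n)

/-- `f` is a spherical harmonic of degree `k`: it agrees almost everywhere on the unit sphere with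
a harmonic homogeneous polynomial of degree `k` with complex coefficients. -/
def SphericalHarmonic {n : ℕ} (k : ℕ) (f : sphere (0 : E n) 1 → ℂ) : Prop :=
  ∃ P : MvPolynomial (Fin n) ℂ, P.IsHomogeneous k ∧
    ∑ i, MvPolynomial.pderiv i (MvPolynomial.pderiv i P) = 0 ∧
    ∀ᵐ x ∂(sigma n), f x = MvPolynomial.eval (fun i => (((x : E n) i : ℝ) : ℂ)) P

/-- `G` is a Borel family of densities; its Fourier coefficients in `t` of index `k` and of index
`-(s+k)` are spherical harmonics of degree `k`, for all `k ≥ 0`, and those of index `-s < k < 0`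
vanish. -/
def Wave {n : ℕ} (s : ℕ) (G : UnitAddCircle → sphere (0 : E n) 1 → ℂ) : Prop :=
  Measurable (Function.uncurry G) ∧
  (∀ k : ℕ, SphericalHarmonic k fun x => fourierCoeff (fun t => G t x) k) ∧
  (∀ k : ℕ, SphericalHarmonic k fun x => fourierCoeff (fun t => G t x) (-((s + k : ℕ) : ℤ))) ∧
  ∀ k : ℕ, 0 < k → k < s → ∀ᵐ x ∂(sigma n), fourierCoeff (fun t => G t x) (-(k : ℤ)) = 0

theorem wave_iff {n s : ℕ} {G : UnitAddCircle → sphere (0 : E n) 1 → ℂ} (h : Wave s G) :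
    Pool.Agent.Helper969.HW.Wave s G := by
  obtain ⟨-, h1, h2, h3⟩ := h
  refine ⟨fun k => ?_, fun k => ?_, h3⟩
  · obtain ⟨P, a, b, c⟩ := h1 k
    exact ⟨P, ⟨a, b⟩, c⟩
  · obtain ⟨P, a, b, c⟩ := h2 k
    exact ⟨P, ⟨a, b⟩, c⟩

/-- **Theorem.** -/
theorem result (n : ℕ) (hn : 3 ≤ n) :
    (∀ p : ℝ, 2 * (n : ℝ) / (n - 1) < p → p < 4 → ∃ C : ℝ≥0,
      ∀ (s : ℕ) (G : UnitAddCircle → sphere (0 : E n) 1 → ℂ), Wave s G →
        ∫⁻ t, (∫⁻ ξ, ‖ft (G t) ξ‖ₑ ^ p) ∂haar ≤
          C * (∫⁻ t, (∫⁻ x, ‖G t x‖ₑ ^ 4 ∂(sigma n)) ∂haar) ^ (p / 4)) ∧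
    (∀ p : ℝ, 2 * (n : ℝ) / (n - 1) < p → ∃ C : ℝ≥0,
      ∀ (s : ℕ) (G : UnitAddCircle → sphere (0 : E n) 1 → ℂ), Wave s G →
        ∀ M : ℝ≥0, (∀ᵐ t ∂haar, ∀ᵐ x ∂(sigma n), ‖G t x‖ ≤ M) →
          ∫⁻ t, (∫⁻ ξ, ‖ft (G t) ξ‖ₑ ^ p) ∂haar ≤ C * (M : ℝ≥0∞) ^ p) ∧
    (∀ (s : ℕ) (G : UnitAddCircle → sphere (0 : E n) 1 → ℂ), Wave s G →
      ∫⁻ t, (∫⁻ x, ‖G t x‖ₑ ^ 4 ∂(sigma n)) ∂haar < ∞ →
        ∀ᵐ t ∂haar, ∀ p : ℝ, 2 * (n : ℝ) / (n - 1) < p →
          MemLp (ft (G t)) (ENNReal.ofReal p)) := by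
  have hn' : (3 : ℝ) ≤ n := by exact_mod_cast hn
  have hpos : 0 < 2 * (n : ℝ) / (n - 1) := by
    have : (0 : ℝ) < n - 1 := by linarith
    positivity
  refine ⟨fun p hp hp4 => ?_, fun p hp => ?_, fun s G hG h4 => ?_⟩
  · obtain ⟨C, hC, h⟩ := Pool.Agent.Helper969.HW.core n hn p hp hp4
    refine ⟨C.toNNReal, fun s G hG => ?_⟩
    by_cases hB : ∫⁻ t, (∫⁻ x, ‖G t x‖ₑ ^ 4 ∂(sigma n)) ∂haar = ∞
    · rw [hB, ENNReal.top_rpow_of_pos (by linarith), ENNReal.mul_top]
      · exact le_top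
      · have : 0 < C.toNNReal := Real.toNNReal_pos.2 hC
        exact_mod_cast this.ne'
    · exact h s G hG.1 (wave_iff hG) _ hB le_rfl
  · obtain ⟨C, hC, h⟩ := Pool.Agent.Helper969.HW.all_q n hn p hp
    refine ⟨C.toNNReal, fun s G hG M hM => ?_⟩
    refine (h s G hG.1 (wave_iff hG) M M.coe_nonneg hM).trans (le_of_eq ?_)
    have hp0 : 0 ≤ p := by linarith
    rw [ENNReal.ofReal_mul hC.le, ← ENNReal.ofReal_rpow_of_nonneg M.coe_nonneg hp0,
      ENNReal.ofReal_coe_nnreal]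
    rfl
  · exact Pool.Agent.Helper969.HW.ae_all n hn s G hG.1 (wave_iff hG) h4

end Pool.Agent.Results.MP_6cbfb8_an.HalfWaveAverages
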