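import Mathlib
import Pool.Agent.Helper969.HW.G5
import Pool.Agent.TH335.RF.P4
set_option autoImplicit false

/-!
# Stein's restriction conjecture: pluriharmonic functions of few coordinates

Let `n ≥ 3`, `2m < n`, let `u_1, ..., u_m, v_1, ..., v_m` be orthonormal in `ℝ^n` and let
`z(x) = (⟨u_j, x⟩ + i ⟨v_j, x⟩)_j`, a point of the closed unit ball of `ℂ^m` if `x` is on the unit
sphere. If `F` and `H` are holomorphic in the open unit ball of `ℂ^m` and the function
`g(x) = F(z(x)) + conj (H(z(x)))` is in `L⁴` of the unit sphere (in particular if it is bounded), then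
the Fourier transform of `g dσ` is in `L^q(ℝ^n)` for every `q > 2n/(n-1)`, the full range of Stein's
conjecture, with norm at most `C ‖g‖_{L⁴}`, where `C` depends on `n` and `q` only. For `m = 1` these are
the functions `g(x) = h(⟨u, x⟩, ⟨v, x⟩)` with `h` harmonic in the unit disc. No smoothness is assumed
at the boundary of the ball, that is near the great sphere where `|z(x)| = 1`.

More generally this holds for superpositions `g(x) = ∑_j e^{i⟨η_j, x⟩} h_j(x)` of modulated densities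
of this kind, where `m` and the orthonormal vectors may depend on `j`, and the norm is at most
`C ∑_j ‖h_j‖_{L⁴}`.
-/

namespace Pool.Agent.Results.MP_6cbfb8_an.PluriharmonicRidges

open MeasureTheory Set Metric Complex Filter
open Pool.Agent.H789R2.FR (E)
open Pool.Agent.TH335.RF (mink)
open scoped ENNReal NNReal RealInnerProductSpace ComplexConjugate

/-- surface measure on the unit sphere -/
noncomputable def sigma (n : ℕ) : Measure (sphere (0 : E n) 1) := (volume : Measure (E n)).toSphere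

/-- the Fourier transform of the measure `g dσ` -/
noncomputable def ft {n : ℕ} (g : sphere (0 : E n) 1 → ℂ) (ξ : E n) : ℂ :=
  ∫ x, Complex.exp (-(2 * Real.pi * ⟪(x : E n), ξ⟫ : ℝ) * I) * g x ∂(sigma n)

/-- the coordinates `z(x) = (⟨u_j, x⟩ + i ⟨v_j, x⟩)_j` in `ℂ^m` -/
noncomputable def z {n m : ℕ} (u v : Fin m → E n) (x : E n) : EuclideanSpace ℂ (Fin m) :=
  WithLp.toLp 2 fun j => ((⟪u j, x⟫ : ℝ) : ℂ) + ((⟪v j, x⟫ : ℝ) : ℂ) * I

/-- `g(x) = F(z(x)) + conj (H(z(x)))` for almost every `x` on the sphere, where `2m < n`, `F` and `H`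
are holomorphic in the open unit ball of `ℂ^m` and the vectors `u_j, v_j` are orthonormal. -/
def Pluri {n : ℕ} (g : sphere (0 : E n) 1 → ℂ) : Prop :=
  ∃ (m : ℕ) (u v : Fin m → E n) (F H : EuclideanSpace ℂ (Fin m) → ℂ), 2 * m < n ∧
    Orthonormal ℝ (Sum.elim u v) ∧
    AnalyticOnNhd ℂ F (ball 0 1) ∧ AnalyticOnNhd ℂ H (ball 0 1) ∧
    ∀ᵐ x : sphere (0 : E n) 1 ∂(sigma n), g x = F (z u v (x : E n)) + conj (H (z u v (x : E n)))

/-- The density `g` on the unit sphere of `ℝ^n` is a superposition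
`∑_j e^{i⟨η_j, x⟩} h_j(x)` of modulated densities as above with `‖h_j‖_{L⁴(σ)} ≤ M_j`. -/
def Super {n : ℕ} (M : ℕ → ℝ) (g : sphere (0 : E n) 1 → ℂ) : Prop :=
  ∃ (η : ℕ → E n) (h : ℕ → sphere (0 : E n) 1 → ℂ), (∀ j, Pluri (h j)) ∧
    (∀ j, MemLp (h j) 4 (sigma n) ∧ eLpNorm (h j) 4 (sigma n) ≤ ENNReal.ofReal (M j)) ∧
    ∀ᵐ x : sphere (0 : E n) 1 ∂(sigma n), g x =
      ∑' j, Complex.exp ((⟪η j, (x : E n)⟫ : ℝ) * I) * h j x

/-! ### Proofs -/

theorem ft_mod {n : ℕ} (g : sphere (0 : E n) 1 → ℂ) (η ξ : E n) :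
    ft (fun x => Complex.exp ((⟪η, (x : E n)⟫ : ℝ) * I) * g x) ξ =
      ft g (ξ - (2 * Real.pi)⁻¹ • η) := by
  unfold ft
  refine integral_congr_ae (Filter.Eventually.of_forall fun x => ?_)
  simp only
  rw [← mul_assoc, ← Complex.exp_add, inner_sub_right, real_inner_smul_right,
    real_inner_comm (x : E n) η]
  have hpi := Real.pi_ne_zero
  congr 2
  push_cast
  field_simp
  ring

/-- **Theorem.** -/
theorem result (n : ℕ) (hn : 3 ≤ n) (q : ℝ) (hq : 2 * (n : ℝ) / (n - 1) < q) :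
    ∃ C : ℝ, 0 < C ∧ ∀ M : ℕ → ℝ, (∀ j, 0 ≤ M j) → Summable M →
      ∀ g : sphere (0 : E n) 1 → ℂ, Super M g →
        MemLp (ft g) (ENNReal.ofReal q) ∧
        eLpNorm (ft g) (ENNReal.ofReal q) ≤ ENNReal.ofReal (C * ∑' j, M j) := by
  have hn' : (3 : ℝ) ≤ n := by exact_mod_cast hn
  have hq1 : 1 ≤ q := by
    refine le_trans ?_ hq.le
    rw [le_div_iff₀ (by linarith)]
    linarith
  have hq0 : 0 < q := by linarith
  obtain ⟨C0, hmain⟩ := Pool.Agent.Helper969.HW.single_q n hn q hq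
  set C : ℝ := (C0 : ℝ) + 1 with hCdef
  have hC : 0 < C := by
    have := C0.coe_nonneg
    rw [hCdef]
    linarith
  refine ⟨C, hC, ?_⟩
  rintro M hM0 hM g ⟨η, h, hh, h4, hg⟩
  have hfin : IsFiniteMeasure (sigma n) := by unfold sigma; infer_instance
  set A : ℝ := ((sigma n univ) ^ (3 / 4 : ℝ)).toReal with hA
  have hAe : (sigma n univ) ^ (3 / 4 : ℝ) = ENNReal.ofReal A := by
    rw [hA, ENNReal.ofReal_toReal]
    exact ENNReal.rpow_ne_top_of_nonneg (by norm_num) (measure_ne_top _ _)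
  have hA0 : 0 ≤ A := ENNReal.toReal_nonneg
  -- one term
  have hone : ∀ j, AEStronglyMeasurable (h j) (sigma n) ∧
      (∫⁻ x, ‖h j x‖ₑ ∂(sigma n) ≤ ENNReal.ofReal (A * M j)) ∧
      Measurable (ft (h j)) ∧
      (∫⁻ ξ, ‖ft (h j) ξ‖ₑ ^ q) ^ (1 / q) ≤ ENNReal.ofReal (C * M j) := by
    intro j
    obtain ⟨m, u, v, F, H, hm, huv, hF, hH, he⟩ := hh j
    obtain ⟨k1, k2⟩ := hmain m hm u v huv F H hF hH (h j) he (h4 j).1
    refine ⟨(h4 j).1.1, ?_, Pool.Agent.Helper969.HW.sft_cont_meas (h j) (h4 j).1.1, ?_⟩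
    · have k3 := Pool.Agent.Helper969.HW.holder_sig (h j) (h4 j).1.1
      have k4 : (∫⁻ w, ‖h j w‖ₑ ^ 4 ∂(sigma n)) ^ (1 / 4 : ℝ) = eLpNorm (h j) 4 (sigma n) := by
        rw [eLpNorm_eq_lintegral_rpow_enorm_toReal (by norm_num) (by norm_num)]
        simp only [ENNReal.toReal_ofNat, ENNReal.rpow_ofNat]
      have hs : Pool.Agent.Y251.HR.sig n = sigma n := rfl
      rw [hs] at k3
      refine k3.trans ?_
      rw [k4, hAe, ENNReal.ofReal_mul hA0]
      gcongr
      exact (h4 j).2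
    · have hs : Pool.Agent.Y251.HR.sig n = sigma n := rfl
      have hs2 : Pool.Agent.Y251.HR.sft (h j) = ft (h j) := rfl
      rw [hs, hs2] at k2
      rw [eLpNorm_eq_lintegral_rpow_enorm_toReal (by simpa using hq0) ENNReal.ofReal_ne_top,
        ENNReal.toReal_ofReal hq0.le] at k2
      refine k2.trans ((mul_le_mul' le_rfl (h4 j).2).trans ?_)
      rw [ENNReal.ofReal_mul hC.le]
      gcongr
      rw [← ENNReal.ofReal_coe_nnreal]
      apply ENNReal.ofReal_le_ofReal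
      rw [hCdef]
      linarith
  have hsub : ∀ j, Measurable fun ξ : E n => ξ - (2 * Real.pi)⁻¹ • η j :=
    fun j => measurable_id.sub_const _
  set gj : ℕ → sphere (0 : E n) 1 → ℂ := fun j x =>
    Complex.exp ((⟪η j, (x : E n)⟫ : ℝ) * I) * h j x with hgj
  have hftj : ∀ j, ft (gj j) = fun ξ => ft (h j) (ξ - (2 * Real.pi)⁻¹ • η j) := by
    intro j
    funext ξ
    exact ft_mod (h j) (η j) ξ
  have hmj : ∀ j, Measurable (ft (gj j)) := by
    intro j
    rw [hftj]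
    exact (hone j).2.2.1.comp (hsub j)
  have hLj : ∀ j, (∫⁻ ξ, ‖ft (gj j) ξ‖ₑ ^ q) ^ (1 / q) ≤ ENNReal.ofReal (C * M j) := by
    intro j
    refine le_trans (le_of_eq ?_) (hone j).2.2.2
    rw [hftj]
    congr 1
    exact lintegral_sub_right_eq_self (fun ξ => ‖ft (h j) ξ‖ₑ ^ q) ((2 * Real.pi)⁻¹ • η j)
  have hexm : ∀ η : E n, Measurable fun x : sphere (0 : E n) 1 =>
      Complex.exp ((⟪η, (x : E n)⟫ : ℝ) * I) := by
    intro η
    have h4 : Continuous fun x : sphere (0 : E n) 1 =>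
      Complex.exp ((⟪η, (x : E n)⟫ : ℝ) * I) := by fun_prop
    exact h4.measurable
  have hsum : ∀ ξ, ft g ξ = ∑' j, ft (gj j) ξ := by
    intro ξ
    unfold ft
    have hexm2 : Measurable fun x : sphere (0 : E n) 1 =>
        Complex.exp (-(2 * Real.pi * ⟪(x : E n), ξ⟫ : ℝ) * I) := by
      have h4 : Continuous fun x : sphere (0 : E n) 1 =>
        Complex.exp (-(2 * Real.pi * ⟪(x : E n), ξ⟫ : ℝ) * I) := by fun_prop
      exact h4.measurable
    have hen : ∀ (j : ℕ) (x : sphere (0 : E n) 1),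
        ‖Complex.exp (-(2 * Real.pi * ⟪(x : E n), ξ⟫ : ℝ) * I) * gj j x‖ₑ = ‖h j x‖ₑ := by
      intro j x
      rw [← ofReal_norm, ← ofReal_norm]
      congr 1
      have h3 : -(((2 * Real.pi * ⟪(x : E n), ξ⟫ : ℝ)) : ℂ) * I =
          ((-(2 * Real.pi * ⟪(x : E n), ξ⟫) : ℝ) : ℂ) * I := by push_cast; ring
      rw [norm_mul, h3, Complex.norm_exp_ofReal_mul_I, one_mul, hgj]
      simp only [norm_mul, Complex.norm_exp_ofReal_mul_I, one_mul]
    rw [← integral_tsum]
    · refine integral_congr_ae ?_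
      filter_upwards [hg] with x hx
      rw [hx, ← tsum_mul_left]
    · exact fun j => hexm2.aestronglyMeasurable.mul
        ((hexm (η j)).aestronglyMeasurable.mul (hone j).1)
    · have h5 : ∑' j, ∫⁻ x, ‖Complex.exp (-(2 * Real.pi * ⟪(x : E n), ξ⟫ : ℝ) * I) *
          gj j x‖ₑ ∂(sigma n) ≤ ∑' j, ENNReal.ofReal (A * M j) := by
        apply ENNReal.tsum_le_tsum
        intro j
        refine le_trans (le_of_eq ?_) (hone j).2.1
        exact lintegral_congr fun x => hen j x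
      refine (h5.trans_lt ?_).ne
      rw [← ENNReal.ofReal_tsum_of_nonneg (fun j => mul_nonneg hA0 (hM0 j)) (hM.mul_left _)]
      exact ENNReal.ofReal_lt_top
  have hfun : ft g = fun ξ => ∑' j, ft (gj j) ξ := funext hsum
  have hmeas : Measurable (ft g) := by
    rw [hfun]
    exact Measurable.tsum fun j => hmj j
  have hle : ∫⁻ ξ, ‖ft g ξ‖ₑ ^ q ≤ (ENNReal.ofReal (C * ∑' j, M j)) ^ q := by
    calc ∫⁻ ξ, ‖ft g ξ‖ₑ ^ q ≤ ∫⁻ ξ, (∑' j, ‖ft (gj j) ξ‖ₑ) ^ q := by
          apply lintegral_mono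
          intro ξ
          simp only
          rw [hsum]
          exact ENNReal.rpow_le_rpow enorm_tsum_le_tsum_enorm hq0.le
      _ ≤ (∑' j, (∫⁻ ξ, ‖ft (gj j) ξ‖ₑ ^ q) ^ (1 / q)) ^ q :=
          mink volume q hq1 (fun j ξ => ‖ft (gj j) ξ‖ₑ) fun j => (hmj j).enorm
      _ ≤ (∑' j, ENNReal.ofReal (C * M j)) ^ q :=
          ENNReal.rpow_le_rpow (ENNReal.tsum_le_tsum hLj) hq0.le
      _ = _ := by
          rw [← ENNReal.ofReal_tsum_of_nonneg (fun j => mul_nonneg hC.le (hM0 j))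
            (hM.mul_left _), tsum_mul_left]
  have hnorm : eLpNorm (ft g) (ENNReal.ofReal q) ≤ ENNReal.ofReal (C * ∑' j, M j) := by
    rw [eLpNorm_eq_lintegral_rpow_enorm_toReal (by simpa using hq0) ENNReal.ofReal_ne_top,
      ENNReal.toReal_ofReal hq0.le]
    refine (ENNReal.rpow_le_rpow hle (by positivity)).trans (le_of_eq ?_)
    rw [← ENNReal.rpow_mul, mul_one_div_cancel hq0.ne', ENNReal.rpow_one]
  exact ⟨⟨hmeas.aestronglyMeasurable, hnorm.trans_lt ENNReal.ofReal_lt_top⟩, hnorm⟩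

end Pool.Agent.Results.MP_6cbfb8_an.PluriharmonicRidges
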