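import Mathlib
import Pool.Agent.Helper854_S2.F

/-!
# Stein's restriction conjecture: optimal decay for tame densities on the sphere of `ℝ³`

`ft g ξ = ∫_{S^{n-1}} e^{-2πi x·ξ} g(x) dσ(x)`. A density `g` on the unit sphere of `ℝ³` is tame, with
parameter `N`, if for `θ = 1, i, -1, -i` and `s > 0` the set `{Re (θ g) > s}` meets every half great
circle in at most `N` arcs. Examples are rational functions of bounded degree, functions whose
superlevel sets are unions of `N` spherically convex sets, indicator functions of semialgebraic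
sets of bounded complexity.

* If `|g| ≤ M`, then `|ft g ξ| ≤ 24 M N / |ξ|` for ALL `ξ`: the Fourier transform decays in all
  directions as fast as for smooth densities. In particular it is in weak `L³`, the endpoint of the
  conjecture in `ℝ³`.
* Hence its `L^p(ℝ³)` norm is at most `C(p, N) M` for all `p > 3`, the full conjectured range.
* In every dimension `n ≥ 3` let `g(x) = F(⟨v_1, x⟩, ⟨v_2, x⟩)`, `v_1, v_2` orthonormal, where
  `|F| ≤ M` on the unit disc and the sets `{Re (θ F) > s}` meet all half ellipses with centre `0` in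
  the disc in at most `N` arcs. Then the `L^q(ℝ^n)` norm of `ft g` is at most `C(n, q, N) M` for all
  `q > 2n/(n-1)`, the full conjectured range.

Proof. The surface measure is `sin θ dθ dφ` in the coordinates with pole `ξ/|ξ|`. On a half great
circle from `ξ/|ξ|` to its antipode the phase is `μ cos θ`, `μ = 2π|ξ|`, and the integral of
`sin θ e^{-iμ cos θ}` over an arc is at most `2/μ`; so the integral over the part of a superlevel set
is at most `2N/μ`. We integrate over the levels and over the half circles. In dimension `n ≥ 4` we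
use the transference theorem of the file `SingleDensityTransference`.
-/

set_option autoImplicit false

open MeasureTheory Metric Filter Topology Set
open scoped ENNReal NNReal RealInnerProductSpace

namespace Pool.Agent.Results.MP_6cbfb8_an.TameDecay

/-- Euclidean space -/
abbrev E (n : ℕ) := EuclideanSpace ℝ (Fin n)

/-- surface measure on the unit sphere -/
noncomputable def sigma (n : ℕ) : Measure (sphere (0 : E n) 1) := (volume : Measure (E n)).toSphere

/-- the Fourier transform of the measure `g dσ` -/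
noncomputable def ft {n : ℕ} (g : sphere (0 : E n) 1 → ℂ) (ξ : E n) : ℂ :=
  ∫ x, Complex.exp (-(2 * Real.pi * ⟪(x : E n), ξ⟫ : ℝ) * Complex.I) * g x ∂(sigma n)

/-- `T` is a union of `N` pairwise disjoint (possibly empty) intervals -/
def IntervalUnion (N : ℕ) (T : Set ℝ) : Prop :=
  ∃ I : Fin N → Set ℝ, (∀ i, (I i).OrdConnected) ∧ Pairwise (Function.onFun Disjoint I) ∧
    T = ⋃ i, I i

/-- the sets `{Re (i^k g) > s}`, `s > 0`, meet every half great circle in at most `N` arcs -/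
def TameOnSphere (N : ℕ) (g : sphere (0 : E 3) 1 → ℂ) : Prop :=
  ∀ (k : ℕ) (s : ℝ), 0 < s → ∀ e v : E 3, ‖e‖ = 1 → ‖v‖ = 1 → ⟪e, v⟫ = 0 →
    IntervalUnion N {θ | θ ∈ Ioo 0 Real.pi ∧
      ∃ x : sphere (0 : E 3) 1, (x : E 3) = Real.cos θ • e + Real.sin θ • v ∧
        s < (Complex.I ^ k * g x).re}

/-- the sets `{Re (i^k F) > s}`, `s > 0`, meet every half ellipse with centre `0` in the closed unit
disc, `θ ↦ cos θ a + sin θ c`, `0 < θ < π`, in at most `N` arcs -/
def TameOnDisc (N : ℕ) (F : E 2 → ℂ) : Prop :=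
  ∀ (k : ℕ) (s : ℝ), 0 < s → ∀ a c : E 2, (∀ θ : ℝ, ‖Real.cos θ • a + Real.sin θ • c‖ ≤ 1) →
    IntervalUnion N
      {θ | θ ∈ Ioo 0 Real.pi ∧ s < (Complex.I ^ k * F (Real.cos θ • a + Real.sin θ • c)).re}

/-- the density `F(⟨v_1, x⟩, ⟨v_2, x⟩)` on the unit sphere of `ℝ^n` -/
noncomputable def dens {n : ℕ} (v : Fin 2 → E n) (F : E 2 → ℂ) (x : sphere (0 : E n) 1) : ℂ :=
  F (WithLp.toLp 2 fun i => ⟪v i, (x : E n)⟫)

/-- pointwise decay in `ℝ³` -/
def Decay (N : ℕ) : Prop :=
  ∀ (g : sphere (0 : E 3) 1 → ℂ) (M : ℝ), Measurable g → (∀ x, ‖g x‖ ≤ M) → TameOnSphere N g →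
    ∀ ξ, ‖ft g ξ‖ * ‖ξ‖ ≤ 24 * (M * N)

/-- the full range in `ℝ³` -/
def SpaceRange (N : ℕ) : Prop :=
  ∀ p : ℝ, 3 < p → ∃ C : ℝ, ∀ (g : sphere (0 : E 3) 1 → ℂ) (M : ℝ), Measurable g →
    (∀ x, ‖g x‖ ≤ M) → TameOnSphere N g → MemLp (ft g) (ENNReal.ofReal p) ∧
      eLpNorm (ft g) (ENNReal.ofReal p) ≤ ENNReal.ofReal (C * M)

/-- the full range in `ℝ^n` for functions of two coordinates -/
def AllDimensions (N : ℕ) : Prop :=
  ∀ (n : ℕ) (q : ℝ), 3 ≤ n → 2 * (n : ℝ) / ((n : ℝ) - 1) < q → ∃ C : ℝ, ∀ (F : E 2 → ℂ) (M : ℝ),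
    Measurable F → (∀ y, ‖y‖ ≤ 1 → ‖F y‖ ≤ M) → TameOnDisc N F →
    ∀ v : Fin 2 → E n, Orthonormal ℝ v → MemLp (ft (dens v F)) (ENNReal.ofReal q) ∧
      eLpNorm (ft (dens v F)) (ENNReal.ofReal q) ≤ ENNReal.ofReal (C * M)

theorem result (N : ℕ) : Decay N ∧ SpaceRange N ∧ AllDimensions N := by
  have hft : ∀ g : sphere (0 : E 3) 1 → ℂ, ft g = Pool.Agent.Helper854_S2.ft g := fun g =>
    Pool.Agent.Helper854_S2.ft_conv (g := g)
  refine ⟨?_, ?_, ?_⟩
  · intro g M hg hM hN ξ
    rw [hft]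
    exact Pool.Agent.Helper854_S2.decay hg hM hN
  · intro p hp
    obtain ⟨C, -, h⟩ := Pool.Agent.Helper854_S2.lp hp N
    refine ⟨C, fun g M hg hM hN => ?_⟩
    rw [hft]
    exact h g M hg hM hN
  · intro n q hn hq
    obtain ⟨C, -, h⟩ := Pool.Agent.Helper854_S2.all_dim hn hq N
    exact ⟨C, fun F M hF hM hN v hv => h F M hF hM hN v hv⟩

end Pool.Agent.Results.MP_6cbfb8_an.TameDecay
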